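import Pool.Agent.N218.P17G.ParE

/-!
# P17G: non-vanishing of the value `GgE A 1 1 3` for even `A`
-/

set_option autoImplicit false

namespace Pool.Agent.N218.P17G

open Finset
open Pool.Agent.N969.P15 (V3 tw ep2 Qc Qe psp un Ev tb c2 chE psp2)
open Pool.Agent.N972.P17
open Pool.Agent.N969.P17G

/-- an auxiliary prime -/
theorem exists_aux (A : ℕ) (hA : 0 < A) : ∃ l : ℕ, l.Prime ∧ Cm l ∧ ¬ l ∣ A := by
  obtain ⟨l, hlt, hl, hlm⟩ := Nat.forall_exists_prime_gt_and_modEq A (q := 68) (a := 3)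
    (by norm_num) (by decide)
  have h3 : l % 68 = 3 := hlm
  refine ⟨l, hl, ⟨hl.prime.squarefree, by omega, ?_⟩, fun h => ?_⟩
  · rw [jacobiSym.mod_left]
    have : (l : ℤ) % ((17 : ℕ) : ℤ) = 3 := by
      push_cast
      omega
    rw [this]
    norm_num
  · exact absurd (Nat.le_of_dvd hA h) (by omega)

/-- the criterion implies the non-vanishing of the constant of proportionality, even `A` -/
theorem even_core (hPG : S_PARGE)
    (hK : ∀ A : ℕ, CpE A → ∀ m : ℕ, PrE A m →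
      8 * P11E 1 A (A * m) = - (GgE A 1 1 3 * cc m ^ 2)) :
    ∀ A : ℕ, CpE A → SxP A → GgE A 1 1 3 ≠ 0 := by
  intro A hA hS h0
  obtain ⟨l, hl, hlm, hlA⟩ := exists_aux A (by have := CpE_pos hA; omega)
  obtain ⟨y, hy, hyS⟩ := hPG A l hA hl hlm hlA
  have hcop : Nat.Coprime A l := Nat.coprime_comm.1 ((Nat.Prime.coprime_iff_not_dvd hl).2 hlA)
  have h1 := hK A hA l ⟨Or.inl ⟨hA, hlm⟩, hcop⟩
  rw [h0, hy] at h1
  have h2 : ((2 ^ (A.primeFactors.card - 1) * y) ^ 2 : ℤ) = 0 := by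
    linarith
  have h3 : y = 0 := by
    have h4 := pow_eq_zero_iff (two_ne_zero) |>.1 h2
    rcases mul_eq_zero.1 h4 with h5 | h5
    · exact absurd h5 (by positivity)
    · exact h5
  have h4 := hyS.2 hS
  rw [h3] at h4
  exact absurd h4 (by decide)

end Pool.Agent.N218.P17G
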