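import Pool.Agent.N218.P17G.EvenF
import Pool.Agent.N844.P17G.Odd
import Pool.Agent.N974.PG.Pos
import Pool.Agent.N875.P17.Crit
import Pool.Agent.N809.M17.Mod17

/-!
# P17G: the rank form of the conjecture for the twists by positive discriminants
-/

set_option autoImplicit false

open Finset UpperHalfPlane MatrixGroups CongruenceSubgroup ZMod

namespace Pool.Agent.N218.P17G

open Pool.Agent.N969.P17G
open Pool.Agent.N972.P17 (Cp Sx)
open Pool.Agent.N875.P17 (Sg Sx_of_sg_pos SxP_of_sg nd17)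
open Pool.Agent.Y687 (RankBSD rankBSD cnt)
open Pool.Agent.N974.Gen
open Pool.Agent.N809.M17 (f17 eigen17)
open Pool.Agent.W97.MT (ap)

/-- **the consistency for odd `A`** -/
theorem f_odd : ∀ A : ℕ, Cp A → 1 < A → Sx A → Gg A 1 1 3 ≠ 0 :=
  Pool.Agent.N844.P17G.odd_core Pool.Agent.N855.P17.t_ZZ

theorem cpe_of {M : ℕ} (hs : Squarefree M) (h4 : M % 4 = 2 ∨ M % 4 = 3) (h17 : jacobiSym M 17 = 1) :
    CpE (4 * M) := ⟨M, rfl, hs, h4, h17⟩

/-- the value at the origin -/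
theorem re0_ne {f : CuspForm (Gamma0 17 : Subgroup (GL (Fin 2) ℝ)) 2} {a : ℕ → ℤ}
    (h : Eigen f a) (h2 : a 2 ≠ 3) : II f 0 ≠ 0 := by
  intro h0
  have P := symbP h (by norm_num : 1 < 17)
  have hh := P.hecke 3 Nat.prime_three (by norm_num) 0
  have hne := Pool.Agent.N974.PG.re_ne h h2
  rw [Finset.sum_range_succ, Finset.sum_range_succ, Finset.sum_range_succ, Finset.sum_range_zero]
    at hh
  have e2 : (II f (2 / 3)).re = (II f (1 / 3)).re := by
    have h3 := P.per (-(1 / 3))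
    have h4 := P.neg (1 / 3)
    rw [show (-(1 / 3) + 1 : ℚ) = 2 / 3 by norm_num] at h3
    rw [h3, h4]
  have h00 : (II f 0).re = 0 := by rw [h0]; rfl
  norm_num at hh
  rw [e2, h00] at hh
  apply hne
  rw [h00]
  linarith

/-- nonvanishing for the curve itself -/
theorem ne_one : ∃ F : ℂ → ℂ, Differentiable ℂ F ∧
    (∀ s : ℂ, (3 : ℝ) / 2 < s.re →
      HasProd (fun p : {p : ℕ // p.Prime ∧
          ¬ ((p : ℤ) ∣ 2 * (4 * (-91 * (1 : ℤ) ^ 2) ^ 3 + 27 * (-330 * (1 : ℤ) ^ 3) ^ 2))} =>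
        Pool.Agent.Y687.fac (-91 * (1 : ℤ) ^ 2) (-330 * (1 : ℤ) ^ 3) s p) (F s)) ∧
    F 1 ≠ 0 := by
  obtain ⟨F, g1, k1, k2, k3, k4⟩ := exists_fG eigen17 (-91) (-330) disc17 bad17 1
    (q := 1) (1 : DirichletCharacter ℂ 1) DirichletCharacter.isPrimitive_one_level_one
    (fun _ => 1) (fun p _ => by
      have : ((p : ℕ) : ZMod 1) = 1 := Subsingleton.elim _ _
      rw [this, map_one]
      norm_num)
    (fun _ _ => Or.inr (Or.inl rfl)) (fun p hp _ h => by
      exact absurd (Nat.dvd_one.1 h) hp.one_lt.ne')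
    (fun p hp hpΔ _ => by
      refine ⟨by norm_num, ?_⟩
      have e : cnt (-91 * (1 : ℤ) ^ 2) (-330 * (1 : ℤ) ^ 3) p = cnt (-91) (-330) p := by norm_num
      show (p : ℤ) - cnt (-91 * (1 : ℤ) ^ 2) (-330 * (1 : ℤ) ^ 3) p = 1 * ap E17 p
      rw [one_mul, e]
      exact good17 hp hpΔ)
  refine ⟨F, k1, k2, k3 ?_⟩
  rintro rfl
  rw [mul_zero] at k4
  have h1 : (1 : DirichletCharacter ℂ 1)⁻¹ = 1 := inv_one
  rw [h1, Fintype.sum_unique] at k4
  have h2 : (((default : (ZMod 1)ˣ) : ZMod 1).val : ℚ) / ((1 : ℕ) : ℚ) = 0 := by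
    have : ((default : (ZMod 1)ˣ) : ZMod 1).val = 0 := by
      have := ZMod.val_lt ((default : (ZMod 1)ˣ) : ZMod 1)
      omega
    rw [this]
    norm_num
  rw [h2] at k4
  have h3 : (1 : DirichletCharacter ℂ 1) ((default : (ZMod 1)ˣ) : ZMod 1) = 1 := by
    have : ((default : (ZMod 1)ˣ) : ZMod 1) = 1 := Subsingleton.elim _ _
    rw [this, map_one]
  rw [h3, one_mul] at k4
  refine re0_ne eigen17 ?_ k4.symm
  rw [ap17_2]
  norm_num

/-- **the rank form of the conjecture for the twists by positive discriminants** -/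
theorem bsd_pos {m : ℤ} (hs : Squarefree m) (h0 : 0 < m) (h17 : jacobiSym m 17 = 1) (hS : Sg m) :
    RankBSD (-91 * m ^ 2) (-330 * m ^ 3) := by
  have hfin : Pool.Agent.N975.S17.FinPts m := (Pool.Agent.N875.P17.desc hs hS).2.2
  lift m to ℕ using h0.le with M
  have hsM : Squarefree M := Int.squarefree_natCast.1 hs
  have hM0 : 0 < M := by exact_mod_cast h0
  have hM4 : M % 4 ≠ 0 := by
    intro h
    have h1 : 2 * 2 ∣ M := by omega
    have := hsM 2 h1
    rw [Nat.isUnit_iff] at this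
    omega
  rcases Nat.eq_or_lt_of_le hM0 with h1 | h1
  · rw [Nat.succ_eq_add_one, zero_add] at h1
    subst h1
    obtain ⟨F, hF, hFp, hF1⟩ := ne_one
    exact rankBSD hF hFp hF1 hfin
  by_cases h4 : M % 4 = 1
  · have hC : Cp M := ⟨hsM, h4, h17⟩
    exact Pool.Agent.N974.PG.bsd_posO eigen17 hC h1
      (f_odd M hC h1 (Sx_of_sg_pos h4 (nd17 h17 one_ne_zero) hS)) hfin
  · have hC : CpE (4 * M) := cpe_of hsM (by omega) h17
    have hSx : SxP (4 * M) := SxP_of_sg (M := M) ⟨rfl, hsM, by omega⟩ (by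
      intro h
      refine nd17 h17 one_ne_zero ?_
      omega) hS
    have e : 4 * M / 4 = M := by omega
    have := Pool.Agent.N974.PG.bsd_posE eigen17 hC (f_even _ hC hSx) (by rw [e]; exact hfin)
    rw [e] at this
    exact this

end Pool.Agent.N218.P17G
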