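import Pool.Agent.N218.P17G.Even
import Pool.Agent.N970.P17G.Ort
import Pool.Agent.N99.P17G.VanE
import Pool.Agent.N844.P17G.Fz
import Pool.Agent.N971.PG.C1F
import Pool.Agent.N971.PG.C1
import Pool.Agent.N871.P17G.C2GE
import Pool.Agent.N809.PG.CnfE
import Pool.Agent.N809.PG.Cnf
import Pool.Agent.N973.P17G.EISE
import Pool.Agent.N970.P17.PCE
import Pool.Agent.N970.P17.PC
import Pool.Agent.N973.P17.BIL
import Pool.Agent.N816.P17.Flip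
import Pool.Agent.N816.P17.C1A
import Pool.Agent.N816.P17.C2B
import Pool.Agent.N816.P17.Tors
import Pool.Agent.N919.P17.RE
import Pool.Agent.N919.P17.R
import Pool.Agent.N609.P17.CnfE
import Pool.Agent.N609.P17.Cnf
import Pool.Agent.N402.P15.C1BE
import Pool.Agent.N402.P15.C1B
import Pool.Agent.N575.P17.HEE
import Pool.Agent.N575.P17.HE
import Pool.Agent.N575.P17G.HEGE2

/-!
# P17G: assembly of the inputs
-/

set_option autoImplicit false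

namespace Pool.Agent.N218.P17G

open Pool.Agent.N969.P17G
open Pool.Agent.N972.P17

theorem s_CNF : S_CNF := Pool.Agent.N609.P17.t_CNF Pool.Agent.N970.P17.t_PC

theorem s_CNFE : S_CNFE := Pool.Agent.N609.P17.t_CNFE Pool.Agent.N970.P17.t_PCE

theorem s_CNFG : S_CNFG := Pool.Agent.N809.PG.t_CNFG s_CNF

theorem s_CNFGE : S_CNFGE := Pool.Agent.N809.PG.t_CNFGE s_CNFE

theorem s_R : S_R := Pool.Agent.N919.P17.t_R Pool.Agent.N816.P17.t_TORS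

theorem s_RE : S_RE := Pool.Agent.N919.P17.t_RE Pool.Agent.N816.P17.t_TORS

theorem s_DIAG : S_DIAG := Pool.Agent.N973.P17.t_DIAG Pool.Agent.N816.P17.CA.t_C1A
  Pool.Agent.N402.P15.t_C1B Pool.Agent.N816.P17.C2.t_C2A Pool.Agent.N816.P17.C2.t_C2B
  Pool.Agent.N970.P17.t_PC Pool.Agent.N575.P17.t_HE2 s_CNF

theorem s_DIAGE : S_DIAGE := Pool.Agent.N973.P17.t_DIAGE Pool.Agent.N816.P17.CA.t_C1AE
  Pool.Agent.N402.P15.t_C1BE Pool.Agent.N816.P17.C2.t_C2E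
  Pool.Agent.N970.P17.t_PCE Pool.Agent.N575.P17.t_HE2E s_CNFE

theorem s_KAPG (hS : Pool.Agent.N973.P17G.S_SY) : S_KAPG := Pool.Agent.N973.P17G.t_KAPG Pool.Agent.N970.P17.t_PC
  Pool.Agent.N844.P17G.t_HEG Pool.Agent.N971.PG.t_C1AG Pool.Agent.N971.PG.t_C1BG
  Pool.Agent.N816.P17.Flip.t_C2AG Pool.Agent.N816.P17.Flip.t_C2BG s_CNFG
  hS Pool.Agent.N970.P17G.t_ORTG s_DIAG

theorem s_KAPGE (hE : S_EQG) (hG : Pool.Agent.N973.P17G.S_GPE)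
    (hS : Pool.Agent.N973.P17G.S_SY) : S_KAPGE := Pool.Agent.N973.P17G.t_KAPGE
  hE hG Pool.Agent.N970.P17.t_PC Pool.Agent.N970.P17.t_PCE
  Pool.Agent.N844.P17G.t_HEG Pool.Agent.N575.P17G.t_HEGE Pool.Agent.N971.PG.t_C1AG Pool.Agent.N971.PG.t_C1BG
  Pool.Agent.N971.PG.t_C1AGE Pool.Agent.N971.PG.t_C1BGE
  Pool.Agent.N816.P17.Flip.t_C2AG Pool.Agent.N816.P17.Flip.t_C2BG Pool.Agent.N871.G17.t_C2GE
  s_CNFG s_CNFGE hS Pool.Agent.N970.P17G.t_ORTG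
  Pool.Agent.N970.P17G.t_ORTGE s_DIAG s_DIAGE

theorem kapge_c (hE : S_EQG) (hG : Pool.Agent.N973.P17G.S_GPE)
    (hS : Pool.Agent.N973.P17G.S_SY) : ∀ A : ℕ, CpE A → ∀ m : ℕ, PrE A m →
    8 * P11E 1 A (A * m) = - (GgE A 1 1 3 * cc m ^ 2) := fun _ hA _ h =>
  Pool.Agent.N973.P17G.kapge hE hG Pool.Agent.N970.P17.t_PCE
    Pool.Agent.N575.P17G.t_HEGE
    Pool.Agent.N971.PG.t_C1AGE Pool.Agent.N971.PG.t_C1BGE Pool.Agent.N871.G17.t_C2GE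
    s_CNFGE hS Pool.Agent.N970.P17G.t_ORTGE s_DIAG s_DIAGE h
    (by have := CpE_pos hA; omega)

theorem s_PARG (hY : Pool.Agent.N973.P17G.S_SY) (hP : S_PAR) (hS : S_SxSc) (hZ : S_ZZ) : S_PARG :=
  t_PARG Pool.Agent.N970.P17G.t_ORTG Pool.Agent.N99.P17G.t_VANG (s_KAPG hY) hP hS s_R hZ

theorem s_PARGE (hE : S_EQG) (hG : Pool.Agent.N973.P17G.S_GPE)
    (hY : Pool.Agent.N973.P17G.S_SY) (hP : S_PAR) (hPE : S_PARE) (hS : S_SxSc) (hSP : S_SxP)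
    (hZ : S_ZZ) (hZE : S_ZZE) : S_PARGE :=
  t_PARGE Pool.Agent.N970.P17G.t_ORTGE Pool.Agent.N99.P17G.t_VANGE (s_KAPGE hE hG hY)
    (s_PARG hY hP hS hZ) hP hPE hS hSP s_RE hZE

/-- **the consistency for even `A`** from the remaining inputs -/
theorem even_A (hE : S_EQG) (hG : Pool.Agent.N973.P17G.S_GPE)
    (hY : Pool.Agent.N973.P17G.S_SY) (hP : S_PAR) (hPE : S_PARE) (hS : S_SxSc) (hSP : S_SxP)
    (hZ : S_ZZ) (hZE : S_ZZE) : ∀ A : ℕ, CpE A → SxP A → GgE A 1 1 3 ≠ 0 :=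
  even_core (s_PARGE hE hG hY hP hPE hS hSP hZ hZE) (kapge_c hE hG hY)

end Pool.Agent.N218.P17G
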