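import Pool.Agent.N218.P17G.EvenA
import Pool.Agent.N855.P17.Fin
import Pool.Agent.N972.P17.Fin
import Pool.Agent.N974.PG.SymE
import Pool.Agent.N973.P17G.SY

/-!
# P17G: the consistency for even `A`, without hypotheses
-/

set_option autoImplicit false

namespace Pool.Agent.N218.P17G

open Pool.Agent.N969.P17G
open Pool.Agent.N972.P17

theorem s_PAR : S_PAR := Pool.Agent.N855.P17.t_PAR f_U1 f_U3 f_R

theorem s_PARE : S_PARE := Pool.Agent.N855.P17.t_PARE f_U1 f_U3 f_R f_U1E f_U3E f_RE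

theorem s_GPE : Pool.Agent.N973.P17G.S_GPE := fun _ hA _ _ _ _ hdet hd =>
  Pool.Agent.N974.PG.GgE_prop hA hdet hd

/-- **the parity law for pairs, both odd** -/
theorem f_PARG : S_PARG := s_PARG Pool.Agent.N973.P17G.t_SY s_PAR
  Pool.Agent.N816.P17.Crit.t_SxSc Pool.Agent.N855.P17.t_ZZ

/-- **the parity law for pairs, the first even** -/
theorem f_PARGE : S_PARGE := s_PARGE Pool.Agent.N974.PG.t_EQG s_GPE Pool.Agent.N973.P17G.t_SY
  s_PAR s_PARE Pool.Agent.N816.P17.Crit.t_SxSc Pool.Agent.N855.P17.t_SxP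
  Pool.Agent.N855.P17.t_ZZ Pool.Agent.N855.P17.t_ZZE

/-- **the consistency for even `A`** -/
theorem f_even : ∀ A : ℕ, CpE A → SxP A → GgE A 1 1 3 ≠ 0 :=
  even_A Pool.Agent.N974.PG.t_EQG s_GPE Pool.Agent.N973.P17G.t_SY s_PAR s_PARE
    Pool.Agent.N816.P17.Crit.t_SxSc Pool.Agent.N855.P17.t_SxP
    Pool.Agent.N855.P17.t_ZZ Pool.Agent.N855.P17.t_ZZE

end Pool.Agent.N218.P17G
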