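import Pool.Agent.N969.P17G.Defs

/-!
# P17G: the parity law for positive discriminants
-/

set_option autoImplicit false

namespace Pool.Agent.N218.P17G

open Finset
open Pool.Agent.N969.P15 (V3 tw ep2 Qc psp un)
open Pool.Agent.N972.P17
open Pool.Agent.N969.P17G

/-- the criterion holds for the primes of the class -/
theorem Sx_prime {l : ℕ} (hl : l.Prime) (h : Cm l) : Sx l := by
  obtain ⟨hs, h4, h17⟩ := h
  have h2 : l ≠ 2 := by rintro rfl; omega
  intro x y h1 h3
  rw [Nat.Prime.primeFactors hl] at h1 h3 ⊢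
  have hLL : LL l l l = 0 := by
    unfold LL
    rw [if_pos rfl, Nat.Prime.primeFactors hl]
    simp
  have hnu : nu l = 1 := by
    unfold nu
    rw [if_neg h2, if_neg]
    have h5 : jacobiSym (17 : ℤ) l = jacobiSym (l : ℤ) 17 := by
      have := jacobiSym.quadratic_reciprocity_one_mod_four (a := 17) (b := l) (by norm_num)
        (Nat.odd_iff.2 (by omega))
      exact_mod_cast this
    rw [h5, h17]
    norm_num
  have hal : al l l = 1 := by
    have hst : Pool.Agent.N972.P17.star l l = -(l : ℤ) := by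
      unfold Pool.Agent.N972.P17.star
      rw [if_neg h2, if_neg (show ¬ l % 4 = 1 by omega)]
    have hl0 := hl.pos
    unfold al
    rw [hst, if_pos (show -(l : ℤ) < 0 by omega)]
  intro p hp
  have hp' := Finset.mem_singleton.1 hp
  subst hp'
  have a1 := h1 p hp
  have a2 := h3 p hp
  rw [Finset.sum_singleton, hLL, hnu, zero_mul, add_zero, one_mul] at a1
  rw [Finset.sum_singleton, hLL, hal, zero_mul, zero_add, one_mul] at a2
  exact ⟨a1, a2⟩

theorem Sx_one : Sx 1 := by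
  intro x y _ _ p hp
  simp at hp

theorem Cp_one : Cp 1 := ⟨squarefree_one, by norm_num, by simp⟩

theorem Cp_odd {A : ℕ} (h : Cp A) : A % 2 = 1 := by have := h.2.1; omega

/-- products of the classes -/
theorem Cm_mul {A m : ℕ} (hA : Cp A) (hm : Cm m) (hc : Nat.Coprime A m) : Cm (A * m) := by
  refine ⟨?_, ?_, ?_⟩
  · rw [Nat.squarefree_mul_iff]
    exact ⟨hc, hA.1, hm.1⟩
  · rw [Nat.mul_mod, hA.2.1, hm.2.1]
  · push_cast
    rw [jacobiSym.mul_left, hA.2.2, hm.2.2]
    norm_num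

/-- quotients of the class `Cp` -/
theorem Cp_div {A B : ℕ} (hA : Cp A) (hB : B ∣ A) (hBp : Cp B) : Cp (A / B) := by
  obtain ⟨C, rfl⟩ := hB
  have hB0 : 0 < B := Nat.pos_of_ne_zero hBp.1.ne_zero
  rw [Nat.mul_div_cancel_left _ hB0]
  obtain ⟨h1, h2, h3⟩ := hA
  refine ⟨(Nat.squarefree_mul_iff.1 h1).2.2, ?_, ?_⟩
  · rw [Nat.mul_mod, hBp.2.1] at h2
    omega
  · push_cast at h3
    rw [jacobiSym.mul_left, hBp.2.2, one_mul] at h3
    exact h3

theorem card_mul {a b : ℕ} (hc : Nat.Coprime a b) :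
    (a * b).primeFactors.card = a.primeFactors.card + b.primeFactors.card := by
  rw [Nat.Coprime.primeFactors_mul hc, Finset.card_union_of_disjoint hc.disjoint_primeFactors]

/-- extraction of the parity from the squares -/
theorem extract {x yl y' ym : ℤ} {k a b : ℕ} (hk : 1 ≤ k) (hab : a - 1 + b = k)
    (h : x ^ 2 * (2 ^ 1 * yl) ^ 2 = (2 ^ (a - 1) * y') ^ 2 * (2 ^ b * ym) ^ 2) (hyl : Odd yl) :
    ∃ u : ℤ, x = 2 ^ (k - 1) * u ∧ (Odd u ↔ Odd y' ∧ Odd ym) := by
  have e2 : (2 : ℤ) ^ k = 2 * 2 ^ (k - 1) := by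
    rw [← pow_succ', Nat.sub_add_cancel hk]
  have h1 : (x * yl) ^ 2 = (2 ^ (k - 1) * (y' * ym)) ^ 2 := by
    have h3 : (2 : ℤ) ^ (a - 1) * 2 ^ b = 2 * 2 ^ (k - 1) := by rw [← pow_add, hab, e2]
    have h4 : 4 * (x * yl) ^ 2 = 4 * (2 ^ (k - 1) * (y' * ym)) ^ 2 := by
      calc 4 * (x * yl) ^ 2 = x ^ 2 * (2 ^ 1 * yl) ^ 2 := by ring
        _ = (2 ^ (a - 1) * y') ^ 2 * (2 ^ b * ym) ^ 2 := h
        _ = ((2 ^ (a - 1) * 2 ^ b) * (y' * ym)) ^ 2 := by ring
        _ = 4 * (2 ^ (k - 1) * (y' * ym)) ^ 2 := by rw [h3]; ring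
    linarith
  have hcop : IsCoprime ((2 : ℤ) ^ (k - 1)) yl := by
    apply IsCoprime.pow_left
    have h5 : ¬ (2 : ℤ) ∣ yl := by
      intro h6
      rw [← even_iff_two_dvd] at h6
      exact (Int.not_even_iff_odd.2 hyl) h6
    exact (Int.prime_two.coprime_iff_not_dvd).2 h5
  have hs : ∃ s : ℤ, (s = 1 ∨ s = -1) ∧ x * yl = 2 ^ (k - 1) * (s * (y' * ym)) := by
    rcases sq_eq_sq_iff_eq_or_eq_neg.1 h1 with h5 | h5
    · exact ⟨1, Or.inl rfl, by rw [h5]; ring⟩
    · exact ⟨-1, Or.inr rfl, by rw [h5]; ring⟩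
  obtain ⟨s, hs1, hs2⟩ := hs
  have hdvd : (2 : ℤ) ^ (k - 1) ∣ x := hcop.dvd_of_dvd_mul_right ⟨_, hs2⟩
  obtain ⟨u, hu⟩ := hdvd
  refine ⟨u, hu, ?_⟩
  have h6 : u * yl = s * (y' * ym) := by
    have h0 : (2 : ℤ) ^ (k - 1) ≠ 0 := by positivity
    apply mul_left_cancel₀ h0
    rw [← hs2, hu]
    ring
  have h7 : Odd (u * yl) ↔ Odd (s * (y' * ym)) := by rw [h6]
  have hso : Odd s := by rcases hs1 with h | h <;> rw [h] <;> decide
  simp only [Int.odd_mul] at h7
  tauto

/-- the parity law from the formulas -/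
theorem fin {k : ℕ} {g y U xA x1 : ℤ} (hk : 1 ≤ k)
    (h1 : 4 * x1 = 3 * (2 ^ (k + 1) * g) + 2 ^ (k + 1) * y)
    (h : (2 : ℤ) ^ k ∣ x1 + (2 ^ (k - 1) * U + xA)) :
    ∃ u : ℤ, xA = 2 ^ (k - 1) * u ∧ Even (g + y + U + u) := by
  obtain ⟨w, hw⟩ := h
  have e2 : (2 : ℤ) ^ k = 2 * 2 ^ (k - 1) := by
    rw [← pow_succ', Nat.sub_add_cancel hk]
  have e3 : (2 : ℤ) ^ (k + 1) = 4 * 2 ^ (k - 1) := by rw [pow_succ', e2]; ring
  rw [e3] at h1
  rw [e2] at hw
  have h2 : x1 = 2 ^ (k - 1) * (3 * g + y) := by linarith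
  refine ⟨2 * w - U - 3 * g - y, ?_, ?_⟩
  · linear_combination hw - h2
  · exact ⟨w - g, by ring⟩

theorem par_fin {g y U u W : ℤ} {P Q : Prop} [Decidable P] [Decidable Q]
    (hev : Even (g + y + U + u)) (hUW : Even (U + W))
    (hg : Odd ((if P then 1 else 0) + ((if Q then 1 else 0) + W) : ℤ) ↔ Odd g)
    (hy : Odd y ↔ P) : Odd u ↔ Q := by
  rw [Int.even_iff] at hev hUW
  rw [Int.odd_iff, Int.odd_iff] at hg
  rw [Int.odd_iff] at hy ⊢
  by_cases c1 : P <;> by_cases c2 : Q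
  · rw [if_pos c1, if_pos c2] at hg
    have := hy.2 c1
    constructor
    · intro _; exact c2
    · intro _; omega
  · rw [if_pos c1, if_neg c2] at hg
    have := hy.2 c1
    constructor
    · intro _; omega
    · intro h; exact absurd h c2
  · rw [if_neg c1, if_pos c2] at hg
    have : ¬ y % 2 = 1 := fun h => c1 (hy.1 h)
    constructor
    · intro _; exact c2
    · intro _; omega
  · rw [if_neg c1, if_neg c2] at hg
    have : ¬ y % 2 = 1 := fun h => c1 (hy.1 h)
    constructor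
    · intro _; omega
    · intro h; exact absurd h c2

theorem four_x1 (n : ℤ) : 4 * ((vec1 n).card : ℤ) = rr n + cc n := by
  unfold rr cc
  ring

open Classical in
/-- **PARG** -/
theorem t_PARG (hO : S_ORTG) (hV : S_VANG) (hK : S_KAPG) (hP : S_PAR) (hS : S_SxSc) (hR : S_R)
    (hZ : S_ZZ) : S_PARG := by
  intro A
  induction A using Nat.strong_induction_on with
  | _ A ih =>
  intro l hA hA1 hl hlm hlA
  have hcop : Nat.Coprime A l := (Nat.coprime_comm.1 ((Nat.Prime.coprime_iff_not_dvd hl).2 hlA))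
  have hA0 : A ≠ 0 := by omega
  have hl3 : 3 ≤ l := by have := hlm.2.1; omega
  set n := A * l with hn
  have hnm : Cm n := Cm_mul hA hlm hcop
  obtain ⟨x, z, hxz, hx1, -, hsum, -⟩ := hO n A hnm ⟨l, rfl⟩
  set k := A.primeFactors.card with hk
  have hk1 : 1 ≤ k := by
    rw [hk, Nat.succ_le_iff, Finset.card_pos, Nat.nonempty_primeFactors]
    exact hA1
  have hkn : n.primeFactors.card = k + 1 := by
    rw [hn, card_mul hcop, Nat.Prime.primeFactors hl, Finset.card_singleton]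
  have h3n : 3 < n := by rw [hn]; nlinarith
  obtain ⟨g, hg, hgQ⟩ := hR n hnm h3n
  obtain ⟨y, hy, hyS⟩ := hP n hnm
  rw [← hS n hnm] at hyS
  rw [hkn] at hg hy
  -- the auxiliary prime
  obtain ⟨yl, hyl, hylS⟩ := hP l hlm
  rw [← hS l hlm] at hylS
  have hylo : Odd yl := hylS.2 (Sx_prime hl hlm)
  rw [Nat.Prime.primeFactors hl, Finset.card_singleton] at hyl
  -- the indicator
  set T : ℕ → Prop := fun B => Cp B ∧ Sx B ∧ Sx (l * (A / B)) with hT
  -- the middle terms
  have hmid : ∀ B ∈ (A.divisors.erase 1).erase A, ∃ u : ℤ, x B = 2 ^ (k - 1) * u ∧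
      (Odd u ↔ T B) := by
    intro B hB
    rw [Finset.mem_erase, Finset.mem_erase, Nat.mem_divisors] at hB
    obtain ⟨hBA, hB1, hBd, -⟩ := hB
    have hBlt : B < A := lt_of_le_of_ne (Nat.le_of_dvd (by omega) hBd) hBA
    have hB0 : 0 < B := Nat.pos_of_dvd_of_pos hBd (by omega)
    by_cases hBp : Cp B
    swap
    · have h0 := (hV n B hnm (hBd.trans ⟨l, rfl⟩) hBp).1
      rw [(hxz B hBd).1] at h0
      have h1 : x B = 0 := by
        exact pow_eq_zero_iff (two_ne_zero) |>.1 h0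
      refine ⟨0, by rw [h1, mul_zero], ?_⟩
      constructor
      · intro h; exact absurd h (by decide)
      · intro h; exact absurd h.1 hBp
    have hlB : ¬ l ∣ B := fun h => hlA (h.trans hBd)
    have hcopBl : Nat.Coprime B l := Nat.coprime_comm.1 ((Nat.Prime.coprime_iff_not_dvd hl).2 hlB)
    obtain ⟨c, hc⟩ := hK B hBp (by omega)
    obtain ⟨y', hy', hyS'⟩ := ih B hBlt l hBp (by omega) hl hlm hlB
    have hdp := Cp_div hA hBd hBp
    have hcd : Nat.Coprime (A / B) l := Nat.coprime_comm.1 ((Nat.Prime.coprime_iff_not_dvd hl).2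
      fun h => hlA (h.trans (Nat.div_dvd_of_dvd hBd)))
    have hmm : Cm (l * (A / B)) := by
      rw [mul_comm]
      exact Cm_mul hdp hlm hcd
    have e1 : B * (A / B) = A := Nat.mul_div_cancel' hBd
    have hcBd : Nat.Coprime B (A / B) := by
      have := hA.1
      rw [← e1] at this
      exact (Nat.squarefree_mul_iff.1 this).1
    have hcm : Nat.Coprime B (l * (A / B)) := Nat.Coprime.mul_right hcopBl hcBd
    have e2 : B * (l * (A / B)) = n := by
      rw [hn, show B * (l * (A / B)) = (B * (A / B)) * l by ring, e1]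
    obtain ⟨ym, hym, hymS⟩ := hP (l * (A / B)) hmm
    rw [← hS _ hmm] at hymS
    have p1 := hc l ⟨hBp, hlm, hcopBl⟩
    have p2 := hc (l * (A / B)) ⟨hBp, hmm, hcm⟩
    rw [e2, (hxz B hBd).1] at p2
    rw [hy'] at p1
    have hcard : B.primeFactors.card - 1 + (l * (A / B)).primeFactors.card = k := by
      rw [card_mul hcd.symm, Nat.Prime.primeFactors hl, Finset.card_singleton, hk]
      have h1 : A.primeFactors.card = B.primeFactors.card + (A / B).primeFactors.card := by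
        rw [← card_mul hcBd, e1]
      have h2 : 1 ≤ B.primeFactors.card := by
        rw [Nat.succ_le_iff, Finset.card_pos, Nat.nonempty_primeFactors]
        omega
      omega
    have key : (x B) ^ 2 * (2 ^ 1 * yl) ^ 2 = (2 ^ (B.primeFactors.card - 1) * y') ^ 2 *
        (2 ^ (l * (A / B)).primeFactors.card * ym) ^ 2 := by
      rw [hyl] at p1
      rw [hym] at p2
      have : (((x B) ^ 2 * (2 ^ 1 * yl) ^ 2 : ℤ) : ℚ) =
          (((2 ^ (B.primeFactors.card - 1) * y') ^ 2 *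
            (2 ^ (l * (A / B)).primeFactors.card * ym) ^ 2 : ℤ) : ℚ) := by
        push_cast at p1 p2 ⊢
        rw [p1, p2]
        ring
      exact_mod_cast this
    obtain ⟨u, hu, huo⟩ := extract hk1 hcard key hylo
    refine ⟨u, hu, ?_⟩
    rw [huo, hyS', hymS]
    constructor
    · rintro ⟨a1, a2⟩; exact ⟨hBp, a1, a2⟩
    · rintro ⟨-, a1, a2⟩; exact ⟨a1, a2⟩
  choose! u hu huT using hmid
  set U := ∑ B ∈ (A.divisors.erase 1).erase A, u B with hU
  have h1A : 1 ∈ A.divisors := Nat.mem_divisors.2 ⟨one_dvd A, hA0⟩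
  have hAA : A ∈ A.divisors.erase 1 := by
    rw [Finset.mem_erase, Nat.mem_divisors]
    exact ⟨by omega, dvd_rfl, hA0⟩
  have hsum' : ∑ B ∈ A.divisors, x B = x 1 + (2 ^ (k - 1) * U + x A) := by
    rw [← Finset.add_sum_erase _ _ h1A, ← Finset.add_sum_erase _ _ hAA, hU, Finset.mul_sum,
      Finset.sum_congr rfl hu]
    ring
  rw [hsum'] at hsum
  obtain ⟨uA, huA, hev⟩ := fin (g := g) (y := y) hk1 (by
    rw [hx1, four_x1, hg, hy]) hsum
  refine ⟨uA, ?_, ?_⟩
  · rw [(hxz A dvd_rfl).1, huA]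
  -- the parity
  have hcount : ((A.divisors.filter T).card : ℤ) =
      (if T 1 then 1 else 0) + ((if T A then 1 else 0) +
        ∑ B ∈ (A.divisors.erase 1).erase A, if T B then 1 else 0) := by
    rw [Finset.card_filter]
    push_cast
    rw [← Finset.add_sum_erase _ _ h1A, ← Finset.add_sum_erase _ _ hAA]
  have hUp : Even (U + ∑ B ∈ (A.divisors.erase 1).erase A, if T B then (1 : ℤ) else 0) := by
    rw [hU, ← Finset.sum_add_distrib]
    refine Finset.even_sum _ fun B hB => ?_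
    have := huT B hB
    by_cases hTB : T B
    · rw [if_pos hTB]
      exact (this.2 hTB).add_odd odd_one
    · rw [if_neg hTB, add_zero]
      exact Int.not_odd_iff_even.1 fun h => hTB (this.1 h)
  have hZ' := hZ A l hA hl hlm hlA
  have hT1 : T 1 ↔ Sx n := by
    rw [hT]
    simp only [Nat.div_one]
    rw [mul_comm l A]
    exact ⟨fun h => h.2.2, fun h => ⟨Cp_one, Sx_one, h⟩⟩
  have hTA : T A ↔ Sx A := by
    rw [hT]
    simp only [Nat.div_self (Nat.pos_of_ne_zero hA0), mul_one]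
    exact ⟨fun h => h.2.1, fun h => ⟨hA, h, Sx_prime hl hlm⟩⟩
  rw [show l * A = n by rw [hn, mul_comm], ← hgQ] at hZ'
  have hcard2 : Odd ((A.divisors.filter T).card : ℤ) ↔ Odd g := by
    rw [← hZ']
    exact_mod_cast Iff.rfl
  have hTy : Odd y ↔ T 1 := by rw [hyS, hT1]
  rw [← hTA]
  rw [hcount] at hcard2
  exact par_fin hev hUp hcard2 hTy

end Pool.Agent.N218.P17G
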