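import Pool.Agent.N969.P17G.Defs2
import Pool.Agent.N218.P17G.Par

/-!
# P17G: the parity law for positive even discriminants
-/

set_option autoImplicit false

namespace Pool.Agent.N218.P17G

open Finset
open Pool.Agent.N969.P15 (V3 tw ep2 Qc Qe psp un Ev tb c2 chE psp2)
open Pool.Agent.N972.P17
open Pool.Agent.N969.P17G

theorem SxP_one : SxP 1 := by
  intro x y _ _ p hp
  simp at hp

theorem CpE_pos {A : ℕ} (h : CpE A) : 3 < A := by
  obtain ⟨M, rfl, hM, -, -⟩ := h
  have : 0 < M := Nat.pos_of_ne_zero hM.ne_zero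
  omega

/-- products of the classes -/
theorem Cme_mul {A l : ℕ} (hA : CpE A) (hl : Cm l) (hc : Nat.Coprime A l) : Cme (A * l) := by
  obtain ⟨M, rfl, h1, h2, h3⟩ := hA
  have hc' : Nat.Coprime M l := Nat.Coprime.coprime_dvd_left ⟨4, by ring⟩ hc
  refine ⟨⟨M * l, by ring, ?_, ?_⟩, ?_⟩
  · rw [Nat.squarefree_mul_iff]
    exact ⟨hc', h1, hl.1⟩
  · rw [Nat.mul_mod, hl.2.1]
    rcases h2 with h | h <;> rw [h] <;> decide
  · push_cast
    rw [jacobiSym.mul_left, jacobiSym.mul_left, h3, hl.2.2]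
    have : jacobiSym 4 17 = 1 := by norm_num
    rw [this]
    norm_num

open Classical in
/-- **PARGE** -/
theorem t_PARGE (hO : S_ORTGE) (hV : S_VANGE) (hK : S_KAPGE) (hG : S_PARG) (hP : S_PAR)
    (hPE : S_PARE) (hS : S_SxSc) (hSP : S_SxP) (hR : S_RE) (hZ : S_ZZE) : S_PARGE := by
  intro A
  induction A using Nat.strong_induction_on with
  | _ A ih =>
  intro l hA hl hlm hlA
  have hcop : Nat.Coprime A l := (Nat.coprime_comm.1 ((Nat.Prime.coprime_iff_not_dvd hl).2 hlA))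
  have hA3 := CpE_pos hA
  have hA0 : A ≠ 0 := by omega
  set n := A * l with hn
  have hnm : Cme n := Cme_mul hA hlm hcop
  have hnA : n / A = l := by rw [hn, Nat.mul_div_cancel_left _ (by omega)]
  obtain ⟨x, z, hxz, hx1, -, hsum, -⟩ := hO n A hnm ⟨l, rfl⟩ (by rw [hnA]; exact hcop)
  set k := A.primeFactors.card with hk
  have hk1 : 1 ≤ k := by
    rw [hk, Nat.succ_le_iff, Finset.card_pos, Nat.nonempty_primeFactors]
    omega
  have hkn : n.primeFactors.card = k + 1 := by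
    rw [hn, card_mul hcop, Nat.Prime.primeFactors hl, Finset.card_singleton]
  obtain ⟨g, hg, hgQ⟩ := hR n hnm
  obtain ⟨y, hy, hyS⟩ := hPE n hnm
  rw [hkn] at hg hy
  -- the auxiliary prime
  obtain ⟨yl, hyl, hylS⟩ := hP l hlm
  rw [← hS l hlm] at hylS
  have hylo : Odd yl := hylS.2 (Sx_prime hl hlm)
  rw [Nat.Prime.primeFactors hl, Finset.card_singleton] at hyl
  -- the indicator
  set T : ℕ → Prop := fun B => PrE B (l * (A / B)) ∧ SxP B ∧ Sx (l * (A / B)) with hT
  set E := A.divisors.filter (fun B => Nat.Coprime B (n / B)) with hE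
  have hdiv : ∀ B : ℕ, B ∣ A → n / B = l * (A / B) := by
    intro B hB
    rw [hn, mul_comm A l, Nat.mul_div_assoc _ hB]
  -- the middle terms
  have hmid : ∀ B ∈ (E.erase 1).erase A, ∃ u : ℤ, x B = 2 ^ (k - 1) * u ∧
      (Odd u ↔ T B) := by
    intro B hB
    rw [Finset.mem_erase, Finset.mem_erase, hE, Finset.mem_filter, Nat.mem_divisors] at hB
    obtain ⟨hBA, hB1, ⟨hBd, -⟩, hBu⟩ := hB
    have hBlt : B < A := lt_of_le_of_ne (Nat.le_of_dvd (by omega) hBd) hBA
    have hB0 : 0 < B := Nat.pos_of_dvd_of_pos hBd (by omega)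
    have hBn : B ∣ n := hBd.trans ⟨l, rfl⟩
    by_cases hBp : PrE B (n / B)
    swap
    · have h0 := (hV n B hnm hBn hBu hBp).1
      rw [(hxz B hBd hBu).1] at h0
      have h1 : x B = 0 := pow_eq_zero_iff (two_ne_zero) |>.1 h0
      refine ⟨0, by rw [h1, mul_zero], ?_⟩
      constructor
      · intro h; exact absurd h (by decide)
      · intro h
        rw [hdiv B hBd] at hBp
        exact absurd h.1 hBp
    rw [hdiv B hBd] at hBp hBu
    set m := l * (A / B) with hm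
    have hlB : ¬ l ∣ B := fun h => hlA (h.trans hBd)
    have hcopBl : Nat.Coprime B l := Nat.coprime_comm.1 ((Nat.Prime.coprime_iff_not_dvd hl).2 hlB)
    have hcd : Nat.Coprime (A / B) l := Nat.coprime_comm.1 ((Nat.Prime.coprime_iff_not_dvd hl).2
      fun h => hlA (h.trans (Nat.div_dvd_of_dvd hBd)))
    have e1 : B * (A / B) = A := Nat.mul_div_cancel' hBd
    have hcBd : Nat.Coprime B (A / B) := Nat.Coprime.coprime_dvd_right ⟨l, by rw [hm]; ring⟩ hBu
    have e2 : B * m = n := by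
      rw [hn, hm, show B * (l * (A / B)) = (B * (A / B)) * l by ring, e1]
    have hcard : B.primeFactors.card - 1 + m.primeFactors.card = k := by
      rw [hm, card_mul hcd.symm, Nat.Prime.primeFactors hl, Finset.card_singleton, hk]
      have h1 : A.primeFactors.card = B.primeFactors.card + (A / B).primeFactors.card := by
        rw [← card_mul hcBd, e1]
      have h2 : 1 ≤ B.primeFactors.card := by
        rw [Nat.succ_le_iff, Finset.card_pos, Nat.nonempty_primeFactors]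
        omega
      omega
    -- the constant of `B`
    have main : ∃ (c : ℚ) (y' ym : ℤ), (((2 ^ (B.primeFactors.card - 1) * y') ^ 2 : ℤ) : ℚ) =
        c * (cc l : ℚ) ^ 2 ∧ (P11E 1 B n : ℚ) = c * (cc m : ℚ) ^ 2 ∧
        cc m = 2 ^ m.primeFactors.card * ym ∧ (Odd y' ↔ SxP B) ∧ (Odd ym ↔ Sx m) := by
      obtain ⟨hcl, hcm⟩ := hBp
      rcases hcl with ⟨hb, hm'⟩ | ⟨hb, hm'⟩
      · obtain ⟨c, -, hc2⟩ := hK B (Or.inr hb) (by omega)
        obtain ⟨y', hy', hyS'⟩ := ih B hBlt l hb hl hlm hlB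
        obtain ⟨ym, hym, hymS⟩ := hP m hm'
        rw [← hS m hm'] at hymS
        have p1 := hc2 l ⟨Or.inl ⟨hb, hlm⟩, hcopBl⟩
        have p2 := hc2 m ⟨Or.inl ⟨hb, hm'⟩, hcm⟩
        rw [e2] at p2
        rw [hy'] at p1
        exact ⟨c, y', ym, p1, p2, hym, hyS', hymS⟩
      · obtain ⟨c, hc1, hc2⟩ := hK B (Or.inl hb) (by omega)
        obtain ⟨y', hy', hyS'⟩ := hG B l hb (by omega) hl hlm hlB
        obtain ⟨ym, hym, hymS⟩ := hPE m hm'
        have p1 := hc1 l ⟨hb, hlm, hcopBl⟩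
        have p2 := hc2 m ⟨Or.inr ⟨hb, hm'⟩, hcm⟩
        rw [e2] at p2
        rw [hy'] at p1
        rw [← hSP B hb] at hyS'
        exact ⟨c, y', ym, p1, p2, hym, hyS', hymS⟩
    obtain ⟨c, y', ym, p1, p2, hym, hyS', hymS⟩ := main
    rw [(hxz B hBd (by rw [hdiv B hBd]; exact hBu)).1] at p2
    have key : (x B) ^ 2 * (2 ^ 1 * yl) ^ 2 = (2 ^ (B.primeFactors.card - 1) * y') ^ 2 *
        (2 ^ m.primeFactors.card * ym) ^ 2 := by
      rw [hyl] at p1
      rw [hym] at p2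
      have : (((x B) ^ 2 * (2 ^ 1 * yl) ^ 2 : ℤ) : ℚ) =
          (((2 ^ (B.primeFactors.card - 1) * y') ^ 2 *
            (2 ^ m.primeFactors.card * ym) ^ 2 : ℤ) : ℚ) := by
        push_cast at p1 p2 ⊢
        rw [p1, p2]
        ring
      exact_mod_cast this
    obtain ⟨u, hu, huo⟩ := extract hk1 hcard key hylo
    refine ⟨u, hu, ?_⟩
    rw [huo, hyS', hymS]
    constructor
    · rintro ⟨a1, a2⟩; exact ⟨hBp, a1, a2⟩
    · rintro ⟨-, a1, a2⟩; exact ⟨a1, a2⟩
  choose! u hu huT using hmid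
  set U := ∑ B ∈ (E.erase 1).erase A, u B with hU
  have h1A : 1 ∈ E := by
    rw [hE, Finset.mem_filter, Nat.mem_divisors]
    exact ⟨⟨one_dvd A, hA0⟩, Nat.coprime_one_left _⟩
  have hAA : A ∈ E.erase 1 := by
    rw [Finset.mem_erase, hE, Finset.mem_filter, Nat.mem_divisors]
    exact ⟨by omega, ⟨dvd_rfl, hA0⟩, by rw [hnA]; exact hcop⟩
  have hsum' : ∑ B ∈ E, x B = x 1 + (2 ^ (k - 1) * U + x A) := by
    rw [← Finset.add_sum_erase _ _ h1A, ← Finset.add_sum_erase _ _ hAA, hU, Finset.mul_sum,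
      Finset.sum_congr rfl hu]
    ring
  rw [hsum'] at hsum
  obtain ⟨uA, huA, hev⟩ := fin (g := g) (y := y) hk1 (by
    rw [hx1, four_x1, hg, hy]) hsum
  refine ⟨uA, ?_, ?_⟩
  · rw [(hxz A dvd_rfl (by rw [hnA]; exact hcop)).1, huA]
  -- the parity
  have hsub : A.divisors.filter T = E.filter T := by
    ext B
    rw [Finset.mem_filter, Finset.mem_filter, hE, Finset.mem_filter]
    constructor
    · rintro ⟨h1, h2⟩
      refine ⟨⟨h1, ?_⟩, h2⟩
      rw [hdiv B (Nat.mem_divisors.1 h1).1]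
      exact h2.1.2
    · rintro ⟨⟨h1, -⟩, h2⟩
      exact ⟨h1, h2⟩
  have hcount : ((A.divisors.filter T).card : ℤ) =
      (if T 1 then 1 else 0) + ((if T A then 1 else 0) +
        ∑ B ∈ (E.erase 1).erase A, if T B then 1 else 0) := by
    rw [hsub, Finset.card_filter]
    push_cast
    rw [← Finset.add_sum_erase _ _ h1A, ← Finset.add_sum_erase _ _ hAA]
  have hUp : Even (U + ∑ B ∈ (E.erase 1).erase A, if T B then (1 : ℤ) else 0) := by
    rw [hU, ← Finset.sum_add_distrib]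
    refine Finset.even_sum _ fun B hB => ?_
    have := huT B hB
    by_cases hTB : T B
    · rw [if_pos hTB]
      exact (this.2 hTB).add_odd odd_one
    · rw [if_neg hTB, add_zero]
      exact Int.not_odd_iff_even.1 fun h => hTB (this.1 h)
  have hZ' := hZ A l hA hl hlm hlA
  have hT1 : T 1 ↔ Sx n := by
    rw [hT]
    simp only [Nat.div_one]
    rw [mul_comm l A]
    exact ⟨fun h => h.2.2, fun h => ⟨⟨Or.inr ⟨Cp_one, hnm⟩, Nat.coprime_one_left _⟩, SxP_one, h⟩⟩
  have hTA : T A ↔ SxP A := by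
    rw [hT]
    simp only [Nat.div_self (Nat.pos_of_ne_zero hA0), mul_one]
    exact ⟨fun h => h.2.1, fun h => ⟨⟨Or.inl ⟨hA, hlm⟩, hcop⟩, h, Sx_prime hl hlm⟩⟩
  rw [show l * A = n by rw [hn, mul_comm], ← hgQ] at hZ'
  have hcard2 : Odd ((A.divisors.filter T).card : ℤ) ↔ Odd g := by
    rw [← hZ']
    exact_mod_cast Iff.rfl
  have hTy : Odd y ↔ T 1 := by rw [hyS, hT1]
  rw [← hTA]
  rw [hcount] at hcard2
  exact par_fin hev hUp hcard2 hTy

end Pool.Agent.N218.P17G
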